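import Pool.Agent.Helper16.CE.Defs

set_option autoImplicit false

namespace Pool.Agent.Helper18.CE
open MeasureTheory Pool.Agent.Helper16.CE
open scoped ENNReal

/-- the outer potential -/
noncomputable def Wf (om : ℕ → ℝ → ℝ) (N : ℕ) (Λ : ℝ) (h : Fin N → ℂ) (z : E3) : ℂ :=
  (1 / (Λ : ℂ) ^ 3) * (∑ n : Fin N, h n * (om n (‖z‖ / Λ) : ℂ)) * (zm z / (‖z‖ : ℂ)) ^ 2

theorem integrable_exp_neg_norm : Integrable (fun x : E3 => Real.exp (-‖x‖)) volume := by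
  have h1 : Integrable (fun x : E3 => (1 + ‖x‖) ^ (-(4 : ℝ))) volume := by
    apply integrable_one_add_norm
    simp
    norm_num
  refine (h1.const_mul 256).mono' ?_ ?_
  · exact (Real.continuous_exp.comp continuous_norm.neg).aestronglyMeasurable
  · refine Filter.Eventually.of_forall fun x => ?_
    have h0 : (0 : ℝ) ≤ ‖x‖ := norm_nonneg x
    rw [Real.norm_eq_abs, abs_of_pos (Real.exp_pos _)]
    have h2 : (1 + ‖x‖) ≤ 4 * Real.exp (‖x‖ / 4) := by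
      have := Real.add_one_le_exp (‖x‖ / 4)
      linarith
    have h3 : (1 + ‖x‖) ^ 4 ≤ 256 * Real.exp (‖x‖) := by
      calc (1 + ‖x‖) ^ 4 ≤ (4 * Real.exp (‖x‖ / 4)) ^ 4 := by gcongr
        _ = 256 * Real.exp (‖x‖) := by
          rw [mul_pow, ← Real.exp_nat_mul]
          norm_num
          ring_nf
    have h4 : (0 : ℝ) < (1 + ‖x‖) ^ 4 := by positivity
    have h5 : (1 + ‖x‖) ^ (-(4 : ℝ)) = ((1 + ‖x‖) ^ 4)⁻¹ := by
      rw [Real.rpow_neg (by positivity)]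
      norm_cast
    rw [h5, Real.exp_neg, ← div_eq_mul_inv, le_div_iff₀ h4, inv_mul_le_iff₀ (Real.exp_pos _)]
    linarith

theorem norm_zm_le (x : E3) : ‖zm x‖ ≤ ‖x‖ := by
  have h1 : ‖zm x‖ ^ 2 = x 0 ^ 2 + x 1 ^ 2 := by
    unfold zm
    rw [← Complex.normSq_eq_norm_sq, Complex.normSq_apply]
    simp
    ring
  have h2 : ‖x‖ ^ 2 = x 0 ^ 2 + x 1 ^ 2 + x 2 ^ 2 := by
    rw [EuclideanSpace.norm_eq, Real.sq_sqrt (by positivity)]
    simp [Fin.sum_univ_three]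
  have h3 : ‖zm x‖ ^ 2 ≤ ‖x‖ ^ 2 := by rw [h1, h2]; nlinarith [sq_nonneg (x 2)]
  exact (pow_le_pow_iff_left₀ (norm_nonneg _) (norm_nonneg _) two_ne_zero).1 h3

theorem norm_zm_div_le (x : E3) : ‖(zm x / (‖x‖ : ℂ)) ^ 2‖ ≤ 1 := by
  rw [norm_pow, norm_div]
  have h1 : ‖zm x‖ / ‖((‖x‖ : ℝ) : ℂ)‖ ≤ 1 := by
    rw [Complex.norm_real, norm_norm]
    exact div_le_one_of_le₀ (norm_zm_le x) (norm_nonneg _)
  exact pow_le_one₀ (by positivity) h1

theorem zm_rot (α : ℝ) (x : E3) : zm (rot α x) = Complex.exp (- (Complex.I * α)) * zm x := by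
  have h1 : (rot α x) 0 = Real.cos α * x 0 - Real.sin α * x 1 := rfl
  have h2 : (rot α x) 1 = Real.sin α * x 0 + Real.cos α * x 1 := rfl
  have h3 : Complex.exp (- (Complex.I * α)) = (Real.cos α : ℂ) - (Real.sin α : ℂ) * Complex.I := by
    rw [show - (Complex.I * α) = (-(α : ℂ)) * Complex.I by ring, Complex.exp_mul_I]
    simp only [Complex.cos_neg, Complex.sin_neg, Complex.ofReal_cos, Complex.ofReal_sin]
    ring
  unfold zm
  rw [h1, h2, h3]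
  push_cast
  linear_combination (-(Complex.sin (α : ℂ)) * (x 1 : ℂ)) * Complex.I_sq

theorem measurable_Wf (N : ℕ) (om : ℕ → ℝ → ℝ) (hm : ∀ n, Measurable (om n)) (Λ : ℝ)
    (h : Fin N → ℂ) : Measurable (Wf om N Λ h) := by
  unfold Wf
  have hz : Measurable (fun z : E3 => zm z) := by
    unfold zm
    have h0 : Measurable (fun z : E3 => z 0) := by fun_prop
    have h1 : Measurable (fun z : E3 => z 1) := by fun_prop
    exact (Complex.measurable_ofReal.comp h0).sub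
      ((Complex.measurable_ofReal.comp h1).const_mul Complex.I)
  have hn : Measurable (fun z : E3 => ((‖z‖ : ℝ) : ℂ)) := Complex.measurable_ofReal.comp measurable_norm
  have hs : Measurable (fun z : E3 => ∑ n : Fin N, h n * (om n (‖z‖ / Λ) : ℂ)) := by
    refine Finset.measurable_sum _ fun n _ => ?_
    exact (Complex.measurable_ofReal.comp ((hm n).comp (measurable_norm.div_const Λ))).const_mul _
  exact (hs.const_mul _).mul ((hz.div hn).pow_const 2)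

theorem W_props (C0 : ℝ) (hC0 : 0 < C0) : ∃ C : ℝ, 0 < C ∧ ∀ (N : ℕ) (om : ℕ → ℝ → ℝ), 1 ≤ N →
    (∀ n, Measurable (om n)) → (∀ n t, t < 1 / (N : ℝ) → om n t = 0) →
    (∀ n ≤ N, ∀ t, |om n t| ≤ C0 * (N : ℝ) ^ 3 * Real.exp (- t / (4 * N))) →
    ∀ (Λ : ℝ), 1 ≤ Λ → ∀ h : Fin N → ℂ,
    Pot (Wf om N Λ h) ∧ (∀ x, ‖x‖ < Λ / N → Wf om N Λ h x = 0) ∧
    (∀ α x, Wf om N Λ h (rot α x) = Complex.exp (- (2 * (Complex.I * α))) * Wf om N Λ h x) ∧
    (∀ x, ‖Wf om N Λ h x‖ ≤ ‖h‖ * (C * (N : ℝ) ^ 4 / Λ ^ 3)) ∧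
    ∫ x, ‖Wf om N Λ h x‖ ≤ ‖h‖ * (C * (N : ℝ) ^ 7) := by
  set J : ℝ := ∫ x : E3, Real.exp (-‖x‖) with hJ
  have hJ0 : 0 ≤ J := integral_nonneg fun x => (Real.exp_pos _).le
  refine ⟨C0 * (1 + 64 * J), by positivity, ?_⟩
  intro N om hN hm hsupp hb Λ hΛ h
  have hΛ0 : 0 < Λ := by linarith
  have hN0 : (0 : ℝ) < N := by exact_mod_cast hN
  have hmeas := measurable_Wf N om hm Λ h
  -- the pointwise bound
  have key : ∀ x : E3, ‖Wf om N Λ h x‖ ≤
      ‖h‖ * (C0 * (N : ℝ) ^ 4 / Λ ^ 3) * Real.exp (-‖(1 / (4 * N * Λ) : ℝ) • x‖) := by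
    intro x
    have h1 : ‖∑ n : Fin N, h n * (om n (‖x‖ / Λ) : ℂ)‖ ≤
        N * (‖h‖ * (C0 * (N : ℝ) ^ 3 * Real.exp (- (‖x‖ / Λ) / (4 * N)))) := by
      calc ‖∑ n : Fin N, h n * (om n (‖x‖ / Λ) : ℂ)‖
          ≤ ∑ n : Fin N, ‖h n * (om n (‖x‖ / Λ) : ℂ)‖ := norm_sum_le _ _
        _ ≤ ∑ _n : Fin N, ‖h‖ * (C0 * (N : ℝ) ^ 3 * Real.exp (- (‖x‖ / Λ) / (4 * N))) := by
            refine Finset.sum_le_sum fun n _ => ?_
            rw [norm_mul, Complex.norm_real, Real.norm_eq_abs]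
            exact mul_le_mul (norm_le_pi_norm h n) (hb n n.2.le _) (abs_nonneg _) (norm_nonneg _)
        _ = _ := by simp
    have h2 : -‖(1 / (4 * N * Λ) : ℝ) • x‖ = - (‖x‖ / Λ) / (4 * N) := by
      rw [norm_smul, Real.norm_eq_abs, abs_of_pos (by positivity)]
      field_simp
    rw [h2]
    unfold Wf
    rw [norm_mul, norm_mul]
    have h3 : ‖(1 / (Λ : ℂ) ^ 3)‖ = 1 / Λ ^ 3 := by
      rw [norm_div, norm_pow, Complex.norm_real, Real.norm_eq_abs, abs_of_pos hΛ0, norm_one]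
    rw [h3]
    calc 1 / Λ ^ 3 * ‖∑ n : Fin N, h n * (om n (‖x‖ / Λ) : ℂ)‖ * ‖(zm x / (‖x‖ : ℂ)) ^ 2‖
        ≤ 1 / Λ ^ 3 * (N * (‖h‖ * (C0 * (N : ℝ) ^ 3 * Real.exp (- (‖x‖ / Λ) / (4 * N))))) * 1 := by
          gcongr
          exact norm_zm_div_le x
      _ = _ := by
        field_simp
  have hexp1 : ∀ x : E3, Real.exp (-‖(1 / (4 * N * Λ) : ℝ) • x‖) ≤ 1 := by
    intro x
    apply Real.exp_le_one_iff.2
    have := norm_nonneg ((1 / (4 * N * Λ) : ℝ) • x)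
    linarith
  have hnn : 0 ≤ ‖h‖ * (C0 * (N : ℝ) ^ 4 / Λ ^ 3) := by positivity
  have hbd : ∀ x : E3, ‖Wf om N Λ h x‖ ≤ ‖h‖ * (C0 * (N : ℝ) ^ 4 / Λ ^ 3) := by
    intro x
    refine (key x).trans ?_
    exact mul_le_of_le_one_right hnn (hexp1 x)
  have hsm : (1 / (4 * N * Λ) : ℝ) ≠ 0 := by positivity
  have hie : Integrable (fun x : E3 => Real.exp (-‖(1 / (4 * N * Λ) : ℝ) • x‖)) volume :=
    integrable_exp_neg_norm.comp_smul hsm
  have hval : ∫ x : E3, Real.exp (-‖(1 / (4 * N * Λ) : ℝ) • x‖) = (4 * N * Λ) ^ 3 * J := by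
    have := Measure.integral_comp_smul (volume : Measure E3) (fun x : E3 => Real.exp (-‖x‖))
      (1 / (4 * N * Λ) : ℝ)
    rw [this]
    rw [show Module.finrank ℝ E3 = 3 by simp, ← hJ, smul_eq_mul]
    congr 1
    rw [one_div, inv_pow, inv_inv, abs_of_pos (by positivity)]
  have hint : Integrable (Wf om N Λ h) volume := by
    refine (hie.const_mul (‖h‖ * (C0 * (N : ℝ) ^ 4 / Λ ^ 3))).mono' hmeas.aestronglyMeasurable ?_
    exact Filter.Eventually.of_forall key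
  refine ⟨⟨hmeas, ⟨_, hbd⟩, hint, ?_, ?_⟩, ?_, ?_, ?_, ?_⟩
  · intro x
    have : zm (-x) = - zm x := by
      unfold zm; simp; ring
    unfold Wf
    rw [norm_neg, this]
    ring
  · intro x
    have h0 : (rf 2 x) 0 = x 0 := by rw [rf_apply]; simp
    have h1 : (rf 2 x) 1 = x 1 := by rw [rf_apply]; simp
    have : zm (rf 2 x) = zm x := by
      unfold zm; rw [h0, h1]
    unfold Wf
    rw [LinearIsometryEquiv.norm_map, this]
  · intro x hx
    have h1 : ‖x‖ / Λ < 1 / (N : ℝ) := by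
      rw [div_lt_div_iff₀ hΛ0 hN0]
      rw [lt_div_iff₀ hN0] at hx
      linarith
    unfold Wf
    have : ∑ n : Fin N, h n * (om n (‖x‖ / Λ) : ℂ) = 0 := by
      refine Finset.sum_eq_zero fun n _ => ?_
      rw [hsupp n _ h1]; simp
    rw [this]; simp
  · intro α x
    unfold Wf
    rw [LinearIsometryEquiv.norm_map, zm_rot]
    rw [show Complex.exp (- (2 * (Complex.I * α))) = (Complex.exp (- (Complex.I * α))) ^ 2 by
      rw [← Complex.exp_nat_mul]; congr 1; push_cast; ring]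
    ring
  · intro x
    refine (hbd x).trans ?_
    have : C0 * (N : ℝ) ^ 4 / Λ ^ 3 ≤ C0 * (1 + 64 * J) * (N : ℝ) ^ 4 / Λ ^ 3 := by
      gcongr
      nlinarith
    exact mul_le_mul_of_nonneg_left this (norm_nonneg _)
  · calc ∫ x, ‖Wf om N Λ h x‖
        ≤ ∫ x : E3, ‖h‖ * (C0 * (N : ℝ) ^ 4 / Λ ^ 3) * Real.exp (-‖(1 / (4 * N * Λ) : ℝ) • x‖) := by
          refine integral_mono hint.norm (hie.const_mul _) key
      _ = ‖h‖ * (C0 * (N : ℝ) ^ 4 / Λ ^ 3) * ((4 * N * Λ) ^ 3 * J) := by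
          rw [integral_const_mul, hval]
      _ = ‖h‖ * (C0 * (64 * J) * (N : ℝ) ^ 7) := by
          field_simp
          ring
      _ ≤ ‖h‖ * (C0 * (1 + 64 * J) * (N : ℝ) ^ 7) := by
          gcongr
          linarith

end Pool.Agent.Helper18.CE
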